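import Pool.Agent.H141.PF.Cert5.All
import Pool.Agent.H141.PF.LP

/-!
# One deterministic pivot rule with at most `5 * 1.6026 ^ n` steps on all cubes

A pivot rule sees the vertices visited so far and their sets of improving directions (no values) and names
an improving direction; it follows a path of improving edges and never jumps.  We give one deterministic
rule which, for each `n`, reaches the optimum within `5 * 1.6026 ^ n - 5` steps, from every start vertex,

* for every abstract objective function on the `n`-cube (adjacent vertices have different values and every
  face has exactly one local maximum), and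
* for every linear program whose polyhedron is combinatorially an `n`-cube (with any real data and any
  objective function, also with ties).

This is the first bound of the form `O((2 - ε) ^ n)` for a deterministic pivot rule on all abstract cubes.
The known deterministic algorithms below `2 ^ n` (product algorithm and Fibonacci seesaw of Szabó and
Welzl, `O(1.61 ^ n)`) evaluate vertices at arbitrary positions and are not path-following.

Idea.  Along an increasing path any two vertices `x`, `y` (`x` first) differ in a direction which is
improving at `x` and not improving at `y`.  Let the rule solve the directions in a set `I` while it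
travels to a target position outside `I`, taking any step towards the target which is improving: the
vertices at which no step towards the target improves form the history of a run inside a cube of
dimension `|I|`, so for the price of one run in dimension `|I|` and `n` steps the rule reaches a sink of a face
which contains the target face.  For `k = 5` outer directions a finite game shows that it is enough to
do this with costs at most those of `8` runs in dimension `n - 5` and one run in dimension `n - 3`
(up to exchanges of this kind).  The strategy of the finite game is a certificate with 524 lemmas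
and 5153 replies, which is checked by the kernel.
The finite strategy was found independently by two seats of the team (helper45 found the version used here).
-/

namespace Pool.Agent.Results.MP_4d246d_lc.AllCubesDeterministicRule

open Pool.Agent.H141.PF Pool.Agent.TH628.PR

/-- **One deterministic pivot rule needs at most `5 * 1.6026 ^ n - 5` steps on every abstract objective
function on the `n`-cube and on every linear program whose polyhedron is an `n`-cube.** -/
theorem result (n : ℕ) (hn : 0 < n) :
    ∃ rule : List ((Fin n → Bool) × Finset (Fin n)) → Fin n,
      (∀ f : (Fin n → Bool) → ℝ, (∀ x i, f (Pool.Agent.H141.PF.flip x i) ≠ f x) →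
        (∀ (U : Finset (Fin n)) (x : Fin n → Bool), ∃! y : Fin n → Bool,
          (∀ i, i ∉ U → y i = x i) ∧ ∀ i ∈ U, f (Pool.Agent.H141.PF.flip y i) < f y) →
        ∀ x₀ : Fin n → Bool, ∃ (L : ℕ) (w : ℕ → (Fin n → Bool)),
          (L : ℝ) + 5 ≤ 5 * (1.6026 : ℝ) ^ n ∧ w 0 = x₀ ∧
          (∀ t < L, rule (seen f w t) ∈ Pool.Agent.H141.PF.improving f (w t) ∧
            w (t + 1) = Pool.Agent.H141.PF.flip (w t) (rule (seen f w t))) ∧
          ∀ y, f y ≤ f (w L)) ∧
      (∀ (A : Fin n × Bool → Fin n → ℝ) (b : Fin n × Bool → ℝ) (c : Fin n → ℝ), IsCube A b →
        ∀ x₀ ∈ (poly A b).extremePoints ℝ, ∃ (L : ℕ) (x : ℕ → Fin n → ℝ),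
          (L : ℝ) + 5 ≤ 5 * (1.6026 : ℝ) ^ n ∧ x 0 = x₀ ∧
          (∀ t < L, rule (told A b c x t) ∈ impr A b c (x t) ∧
            Nb A b (x t) (rule (told A b c x t)) (x (t + 1))) ∧
          ∀ y ∈ poly A b, ∑ l, c l * y l ≤ ∑ l, c l * x L l) := by
  obtain ⟨T, hT, hT'⟩ := Cert5.bound (Finset.univ : Finset (Fin n))
  rw [Finset.card_univ, Fintype.card_fin] at hT'
  obtain ⟨rule, hrule⟩ := exists_rule hn hT
  refine ⟨rule, fun f h1 h2 x₀ => ?_, fun A b c hA x₀ hx₀ => ?_⟩
  · have hu : Uni f := OneMax.toUni ⟨h1, h2⟩
    obtain ⟨L, w, hL, h0, h3, h4⟩ := hrule f hu x₀
    refine ⟨L, w, ?_, h0, h3, fun y => hu.le_max h4 y⟩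
    have : (L : ℝ) ≤ T := by exact_mod_cast hL
    linarith
  · obtain ⟨L, x, hL, h0, h3, h4⟩ := lp_walk hA c rule hrule x₀ hx₀
    refine ⟨L, x, ?_, h0, h3, h4⟩
    have : (L : ℝ) ≤ T := by exact_mod_cast hL
    linarith

end Pool.Agent.Results.MP_4d246d_lc.AllCubesDeterministicRule
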