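import Pool.Agent.H686.RP.Final
set_option autoImplicit false

/-!
# All randomised pivot rules need superpolynomially many steps on abstract cubes

`flip x i` is the neighbour of the vertex `x` of the `n`-cube in direction `i`, and `improving f x` the
set of directions `i` with `f x < f (flip x i)`. A randomised pivot rule sees the list of triples (visited
vertex, its objective value, its set of improving directions), the current one first, and chooses one of
the improving directions at random; `p l i` is the probability of the direction `i` when `l` is seen. These
probabilities are arbitrary, and they may depend on all that was seen in any way; a deterministic rule is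
the case in which they are `0` or `1`. `prob f p T x l` is the probability of at least `T` further steps
from `x` when `l` was seen before. The start vertex is random with an arbitrary distribution `μ`.

The theorem: if `n ≥ 2 ^ (32 k)` then for every such rule there is an injective objective function with
exactly one local maximum on every face of the `n`-cube on which the rule makes at least `2 ^ (k ^ 2)` steps
with a probability of at least `1 - 2 ^ (-k)`. With `k = ⌊log₂ n / 32⌋` these are `n ^ (Ω(log n))` steps.
More generally there is ONE objective function which is bad for each of `2 ^ ⌊n / 2 ^ (26 k + 2)⌋` given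
rules with given distributions of the start vertices. In other words, `⌊n / 2 ^ (26 k + 2)⌋` bits of advice
about the objective function do not help. For `k` about `√(A log₂ n)` these are `n ^ (1 - o(1))` bits and
at least `n ^ A` steps, while with `n` bits of advice (the name of the maximum) `n` steps are enough.

Proof. Random targets `R t` and small random sets `K t` of directions (every direction with probability
`1 / b`) are given for every `t`. In phase `t` all edges are oriented towards `R t`, except those of the
directions which have been frozen. A hidden absorbing face consists of the vertices which differ from a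
target in at most `q` directions of a hidden set `K`; once it has been entered, the directions of `K` lead to
the target and the orientation of the other directions is replaced by that of the next phase. The phases are
organised in `k` nested levels with `2 ^ k` hidden faces each, every hidden face of a level is prepared
while the phases of the lower level are going on; inner faces have much larger radii than outer ones, and
while the vertex is not yet close to the target of its phase, all outer faces are far away because their
sets and targets are independent of all that was seen. The orientation has to be corrected near the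
targets (`cut` in `Defs.lean`) in order that every face has only one local maximum; the objective function
is the lexicographic order of the numbers of agreements (`pot`).
-/

namespace Pool.Agent.Results.MP_4d246d_lc.AllRandomisedRules

open Finset

/-- the neighbour of the vertex `x` in direction `i` -/
def flip {n : ℕ} (x : Fin n → Bool) (i : Fin n) : Fin n → Bool := Function.update x i (!x i)

/-- the improving directions at the vertex `x` -/
def improving {n : ℕ} (f : (Fin n → Bool) → ℕ) (x : Fin n → Bool) : Finset (Fin n) :=
  univ.filter fun i => f x < f (flip x i)

/-- `prob f p T x l` is the probability that the rule `p` makes at least `T` further steps from the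
vertex `x` when it has seen `l` before: it sees `(x, f x, improving f x)` and moves to `flip x i` with
probability `p ((x, f x, improving f x) :: l) i`, and it stops if there is no improving direction. -/
noncomputable def prob {n : ℕ} (f : (Fin n → Bool) → ℕ)
    (p : List ((Fin n → Bool) × ℕ × Finset (Fin n)) → Fin n → ℝ) :
    ℕ → (Fin n → Bool) → List ((Fin n → Bool) × ℕ × Finset (Fin n)) → ℝ
  | 0, _, _ => 1
  | T + 1, x, l => ∑ i ∈ improving f x, p ((x, f x, improving f x) :: l) i *
      prob f p T (flip x i) ((x, f x, improving f x) :: l)

theorem prob_eq {n : ℕ} (f : (Fin n → Bool) → ℕ)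
    (p : List ((Fin n → Bool) × ℕ × Finset (Fin n)) → Fin n → ℝ) (T : ℕ) (x : Fin n → Bool)
    (l : List ((Fin n → Bool) × ℕ × Finset (Fin n))) :
    prob f p T x l = H686.RP.prb f p T x l := by
  induction T generalizing x l with
  | zero => rw [prob, H686.RP.prb]
  | succ T ih =>
    rw [prob, H686.RP.prb]
    apply sum_congr rfl
    intro i _
    rw [ih]
    rfl

/-- a shortest path to the maximum -/
theorem short_path {n : ℕ} {f : (Fin n → Bool) → ℕ} (hinj : Function.Injective f)
    (hf : ∀ (U : Finset (Fin n)) (x : Fin n → Bool), ∃! y : Fin n → Bool,
        (∀ i, i ∉ U → y i = x i) ∧ ∀ i ∈ U, f (flip y i) < f y) (x : Fin n → Bool) :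
    ∃ (m : ℕ) (v : ℕ → (Fin n → Bool)), m ≤ n ∧ v 0 = x ∧
        (∀ t < m, ∃ i ∈ improving f (v t), v (t + 1) = flip (v t) i) ∧
        improving f (v m) = ∅ := by
  obtain ⟨z, ⟨-, hz⟩, -⟩ := hf univ x
  have key : ∀ (d : ℕ) (x : Fin n → Bool), (univ.filter fun i => x i ≠ z i).card = d →
      ∃ (v : ℕ → (Fin n → Bool)), v 0 = x ∧
        (∀ t < d, ∃ i ∈ improving f (v t), v (t + 1) = flip (v t) i) ∧ improving f (v d) = ∅ := by
    intro d
    induction d with
    | zero =>
      intro x hx
      rw [card_eq_zero, filter_eq_empty_iff] at hx
      have hxz : x = z := by
        funext i
        by_contra h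
        exact hx (mem_univ i) h
      refine ⟨fun _ => x, rfl, fun t ht => absurd ht (Nat.not_lt_zero t), ?_⟩
      unfold improving
      rw [filter_eq_empty_iff]
      intro i _
      rw [hxz]
      exact not_lt.2 (hz i (mem_univ i)).le
    | succ d ih =>
      intro x hx
      obtain ⟨y, -, huniq⟩ := hf (univ.filter fun i => x i ≠ z i) x
      have hzy : z = y := huniq z ⟨fun i hi => by
        by_contra h
        exact hi (mem_filter.2 ⟨mem_univ _, fun e => h e.symm⟩), fun i _ => hz i (mem_univ i)⟩
      have hxne : x ≠ z := by
        rintro rfl
        simp at hx
      have h1 : ∃ i ∈ univ.filter (fun i => x i ≠ z i), ¬ f (flip x i) < f x := by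
        by_contra h
        push Not at h
        exact hxne ((huniq x ⟨fun _ _ => rfl, h⟩).trans hzy.symm)
      obtain ⟨i, hi, h2⟩ := h1
      rw [mem_filter] at hi
      have h3 : f x < f (flip x i) := by
        refine lt_of_le_of_ne (not_lt.1 h2) fun e => ?_
        have h4 := congrFun (hinj e) i
        simp [flip] at h4
      have h5 : (univ.filter fun j => flip x i j ≠ z j).card = d := by
        have h6 : (univ.filter fun j => flip x i j ≠ z j) = (univ.filter fun j => x j ≠ z j).erase i := by
          ext j
          rw [mem_erase, mem_filter, mem_filter]
          by_cases hji : j = i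
          · subst hji
            have h7 := hi.2
            have h8 : flip x j j = !x j := by simp [flip]
            rw [h8]
            revert h7
            cases x j <;> cases z j <;> simp
          · have h8 : flip x i j = x j := by simp [flip, hji]
            rw [h8]
            simp [hji]
        rw [h6, card_erase_of_mem (mem_filter.2 hi), hx]
        rfl
      obtain ⟨v, hv0, hv1, hv2⟩ := ih _ h5
      refine ⟨fun t => if t = 0 then x else v (t - 1), by simp, ?_, ?_⟩
      · intro t ht
        rcases Nat.eq_zero_or_pos t with rfl | ht0
        · refine ⟨i, ?_, ?_⟩
          · simp [improving, h3]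
          · simp [hv0]
        · obtain ⟨j, hj1, hj2⟩ := hv1 (t - 1) (by omega)
          refine ⟨j, ?_, ?_⟩
          · simpa [show t ≠ 0 by omega] using hj1
          · have h9 : t - 1 + 1 = t := by omega
            rw [h9] at hj2
            simpa [show t ≠ 0 by omega] using hj2
      · simpa using hv2
  obtain ⟨v, h1, h2, h3⟩ := key _ x rfl
  refine ⟨_, v, ?_, h1, h2, h3⟩
  calc _ ≤ (univ : Finset (Fin n)).card := card_le_card (filter_subset _ _)
    _ = n := by simp

/-- **Every randomised pivot rule needs `n ^ (Ω(log n))` steps on abstract cubes.** Let `k ≥ 1` and
`n ≥ 2 ^ (32 k)`, and let `p j`, `j ∈ ι`, be at most `2 ^ ⌊n / 2 ^ (26 k + 2)⌋` randomised pivot rules with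
unlimited memory: `p j l` is a probability distribution on the improving directions of the current vertex,
which may depend on the list `l` of all the visited vertices with their objective values and sets of
improving directions in any way. Let `μ j` be arbitrary distributions of the start vertices. Then there is
one injective objective function `f` with exactly one local maximum on every face of the `n`-cube (so that
increasing paths of at most `n` steps lead from every vertex to the maximum) on which each of the rules
makes at least `2 ^ (k ^ 2)` steps with a probability of at least `1 - 2 ^ (-k)`. -/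
theorem result (n k : ℕ) (hk : 1 ≤ k) (hn : 2 ^ (32 * k) ≤ n) (ι : Type) [Fintype ι]
    (hι : Fintype.card ι ≤ 2 ^ (n / 2 ^ (26 * k + 2)))
    (p : ι → List ((Fin n → Bool) × ℕ × Finset (Fin n)) → Fin n → ℝ)
    (hp0 : ∀ j l i, 0 ≤ p j l i)
    (hp1 : ∀ j x c S l, S.Nonempty → ∑ i ∈ S, p j ((x, c, S) :: l) i = 1)
    (μ : ι → (Fin n → Bool) → ℝ) (hμ0 : ∀ j x, 0 ≤ μ j x) (hμ1 : ∀ j, ∑ x, μ j x = 1) :
    ∃ f : (Fin n → Bool) → ℕ, Function.Injective f ∧
      (∀ (U : Finset (Fin n)) (x : Fin n → Bool), ∃! y : Fin n → Bool,
        (∀ i, i ∉ U → y i = x i) ∧ ∀ i ∈ U, f (flip y i) < f y) ∧
      (∀ x : Fin n → Bool, ∃ (m : ℕ) (v : ℕ → (Fin n → Bool)), m ≤ n ∧ v 0 = x ∧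
        (∀ t < m, ∃ i ∈ improving f (v t), v (t + 1) = flip (v t) i) ∧
        improving f (v m) = ∅) ∧
      ∀ j, 1 - (1 / 2) ^ k ≤ ∑ x, μ j x * prob f (p j) (2 ^ (k ^ 2)) x [] := by
  obtain ⟨f, h1, h2, h3⟩ := H686.RP.main hk hn hι p hp0 hp1 μ hμ0 hμ1
  refine ⟨f, h1, h2, fun x => short_path h1 h2 x, fun j => ?_⟩
  simp_rw [prob_eq]
  exact h3 j

end Pool.Agent.Results.MP_4d246d_lc.AllRandomisedRules
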