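import Pool.Agent.H693.Comb.Cube

set_option autoImplicit false

/-!
# Combed linear programs: the best rule without numbers needs exactly `n (n + 1) / 2` pivots

Linear programs `max c x`, `A x ≤ b` with `n` variables and `2 n` rows `(i, e)`, `i ∈ Fin n`,
`e ∈ {false, true}`, whose polyhedron is combinatorially a cube with the rows `(i, false)` and
`(i, true)` as opposite facets (`IsCube`). They are *combed* (`CombedLP`) if every face has a pair of rows
such that it depends only on the tight row of this pair whether this row can be left with an
improvement (the Klee-Minty cubes are of this kind).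

A deterministic rule without numbers is told at each vertex which rows are tight and which of
them can be left with an improvement; it knows nothing else about `A`, `b` and `c`, but it remembers
everything it has been told and there is no bound on its memory and on its computations (`told`).

We determine the number of pivots of the best rule of this kind: it is exactly `n (n + 1) / 2`.

1. There is one rule which makes at most `n (n + 1) / 2` pivots on all combed linear programs with
   real data, from all vertices: the phase rule. It leaves a tight row whose pair has not been used
   in the current phase; if there is none with an improvement, then a new phase begins.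
2. For every rule and every choice of the tight rows at the start vertex there is a combed linear
   program with integer data, `|A| ≤ 8 n`, `|b| ≤ 24 n`, `c ∈ {0, 1} ^ n`, whose polyhedron is
   contained in the positive orthant (so it does not matter whether `x ≥ 0` is added), on which
   the rule makes exactly `n (n + 1) / 2` pivots.

So on these linear programs, where from every vertex at most `n` pivots are enough, it is
quadratic, and not linear, what a rule can do without numbers. The bound of part 1 is also the known bound
of the rule Random-Edge. (For rules which forget everything see `ParityRule`.)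

Proof of 2. The linear program has the levels `0, …, n - 1` (from the bottom to the top) with the
constraints `8 n + ∑ j < k, (-1) ^ (k - j) x j ≤ 8 n x k ≤ 24 n + x (k - 1)`, and the objective function
is the highest coordinate. Let `k` be the highest level at which the lower constraint is tight.
The levels above `k` are settled, and the improvements are: all levels `k - 2 i` at which the lower
constraint is tight and all levels `k - 2 i - 1` at which the upper one is tight. The adversary
decides in each phase that the pair which the rule uses last belongs to the highest level which is not yet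
settled, so that the rule has to use all other pairs once more in the next phase.
-/

namespace Pool.Agent.Results.MP_4d246d_lc.CombedExact

open Finset Pool.Agent.TH628.PR Pool.Agent.H693.Comb

/-- **The best deterministic pivot rule which is told only the names of the tight and of the improving
rows makes exactly `n (n + 1) / 2` pivots on combed linear programs with `n` variables.** -/
theorem result (n : ℕ) (hn : 0 < n) :
    (∃ ρ : List (View n) → Fin n,
      (∀ (v : View n) (l : List (View n)), v.2.Nonempty → ρ (v :: l) ∈ v.2) ∧
      ∀ (A : Fin n × Bool → Fin n → ℝ) (b : Fin n × Bool → ℝ) (c : Fin n → ℝ),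
        IsCube A b → CombedLP A b c → ∀ x₀ ∈ (poly A b).extremePoints ℝ,
          ∃ (L : ℕ) (x : ℕ → Fin n → ℝ), x 0 = x₀ ∧ Run A b c ρ L x ∧ 2 * L ≤ n * (n + 1)) ∧
    ∀ ρ : List (View n) → Fin n,
      (∀ (v : View n) (l : List (View n)), v.2.Nonempty → ρ (v :: l) ∈ v.2) →
      ∀ s₀ : Fin n → Bool,
        ∃ (A : Fin n × Bool → Fin n → ℤ) (b : Fin n × Bool → ℤ) (c : Fin n → ℤ),
          IsCube (fun r l => (A r l : ℝ)) (fun r => (b r : ℝ)) ∧
          CombedLP (fun r l => (A r l : ℝ)) (fun r => (b r : ℝ)) (fun l => (c l : ℝ)) ∧
          (∀ y ∈ poly (fun r l => (A r l : ℝ)) (fun r => (b r : ℝ)), ∀ l, 0 < y l) ∧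
          (∀ r l, |A r l| ≤ 8 * n) ∧ (∀ r, |b r| ≤ 24 * n) ∧ (∀ l, c l = 0 ∨ c l = 1) ∧
          ∃ (L : ℕ) (x : ℕ → Fin n → ℝ),
            VertexAt (fun r l => (A r l : ℝ)) (fun r => (b r : ℝ)) s₀ (x 0) ∧
            Run (fun r l => (A r l : ℝ)) (fun r => (b r : ℝ)) (fun l => (c l : ℝ)) ρ L x ∧
            2 * L = n * (n + 1) := by
  refine ⟨⟨phaseRule hn, phaseRule_mem hn, fun A b c hA hc x₀ hx₀ =>
    upper_part hn hA c hc x₀ hx₀⟩, fun ρ hρ s₀ => ?_⟩
  obtain ⟨e, g, L, x, h1, h2, h3⟩ := lower_part hn ρ hρ s₀
  have hn' : (1 : ℤ) ≤ n := by exact_mod_cast hn
  refine ⟨MM e g, rr e g, ob, isCube e g hn, combed e g hn, ?_, ?_, ?_, ?_, L, x, h1, h2, h3⟩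
  · intro y hy l
    have := (poly_bounds e g hy l.2).1
    rw [ex_val] at this
    linarith
  · intro r l
    unfold MM low upp
    split_ifs
    · rw [abs_neg, abs_of_nonneg (by positivity)]
    · rw [abs_pow, abs_neg, abs_one, one_pow]
      omega
    · rw [abs_zero]
      positivity
    · rw [abs_of_nonneg (by positivity)]
    · rw [abs_neg, abs_one]
      omega
    · rw [abs_zero]
      positivity
  · intro r
    unfold rr
    split_ifs
    · rw [abs_neg, abs_of_nonneg (by positivity)]
      omega
    · rw [abs_of_nonneg (by positivity)]
  · intro l
    unfold ob
    split_ifs
    · exact Or.inr rfl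
    · exact Or.inl rfl

end Pool.Agent.Results.MP_4d246d_lc.CombedExact
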