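import Pool.Agent.H693.Dep.Geo

set_option autoImplicit false

/-!
# Short improving paths on polyhedra modelled on products of polyhedra with few facets

Linear programs `max c x` over a polyhedron `P = {x : a i x ≤ b i}` in real variables, which may be
degenerate or unbounded. Let `Q k`, `k ∈ K`, be any number of polyhedra, such that `Q k` is given by at
most `dim + 2 r` inequalities, and suppose that some of the constraints of `P` correspond to the
constraints of the `Q k` in such a way that at every vertex of `P` those constraints are tight which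
are tight at a vertex of the product of the `Q k`, and that they determine the vertex of `P`
(`Modelled`). This is a purely combinatorial condition. For example:

* `P` is combinatorially equivalent to a product of polytopes with few facets (all deformed products);
* `P` is contained in a product of such polyhedra, and each of its vertices is a vertex of the product
  (for segments these are the 0/1-polytopes).

We show that from each vertex of `P` and for each objective function `c` there is a path of at most
`(M + r choose r) - 1` edges, `M = ∑ k, min (dim Q k) (2 r)`, on each of which `c` increases, to an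
optimal vertex or to a vertex with an unbounded improving edge. So the monotone diameter is polynomial
for fixed `r`: it is at most `(M + r choose r) - 1` with `M ≤ 2 r |K|`, whatever the
dimensions, the number of further constraints, and the coefficients are. For `r = 1` the bound is `M`;
for cubes, 0/1-polytopes and products of simplices this was known. For polygons with `m` sides we can
take `r = ⌈m / 2⌉ - 1`: for deformed products of pentagons and hexagons of dimension `n` the bound is
`n (n + 3) / 2`.

The proof. For a set `S` of tight constraints and a set `D` of constraints, which are not tight, let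
`t` be the best vertex in the region of `(S, D)`. From a vertex `v` of the region we want to go to `t`
or to a vertex where a constraint in `D` is tight. Let `S'` be the common tight constraints of `v` and
`t`, and let `D'` be `D` with the other tight constraints of `t`. By induction we can go to the best
vertex of the region of `(S', D')`, or to a vertex where a constraint of `D'` is tight. In the first
case an improving edge in the smallest face which contains this vertex and `t` leads out of the region.
So a constraint in `D` is tight or one more constraint of `t` is tight. On each level the regions get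
smaller by two constraints in each factor, or consist of one vertex of the factor.
-/

namespace Pool.Agent.Results.MP_4d246d_lc.ProductsOfSmallPolyhedra

open Finset Pool.Agent.H693.Dep Pool.Agent.K4H92.LP

/-- the polyhedron `a i x ≤ b i` -/
def Polyhedron {I V : Type} [Fintype V] (a : I → V → ℝ) (b : I → ℝ) : Set (V → ℝ) :=
  {x | ∀ i, a i ⬝ᵥ x ≤ b i}

/-- From the vertex `v` of `P` there is a path of at most `B` edges of `P`, on each of which the
objective `c` increases, to a vertex at which `c` is maximal, or to a vertex with an unbounded edge on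
which `c` increases. -/
def ShortPath {V : Type} [Fintype V] (P : Set (V → ℝ)) (c v : V → ℝ) (B : ℕ) : Prop :=
  ∃ N ≤ B, ∃ x : ℕ → V → ℝ, x 0 = v ∧ (∀ k ≤ N, x k ∈ P.extremePoints ℝ) ∧
    (∀ k < N, IsExposed ℝ P (segment ℝ (x k) (x (k + 1))) ∧ c ⬝ᵥ x k < c ⬝ᵥ x (k + 1)) ∧
    ((∀ y ∈ P, c ⬝ᵥ y ≤ c ⬝ᵥ x N) ∨
      ∃ d, IsExposed ℝ P {z | ∃ t : ℝ, 0 ≤ t ∧ z = x N + t • d} ∧ 0 < c ⬝ᵥ d)

/-- The constraint `e (k, j)` of the polyhedron `a i x ≤ b i` corresponds to the constraint `j` of the
polyhedron `Q k`, given by `A k` and `B k`. At each vertex of `P`, those constraints of the block `k` are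
tight which correspond to the tight constraints of a vertex of `Q k`; and two vertices of `P`
with the same tight constraints in all the blocks are equal. -/
def Modelled {I V K : Type} [Fintype V] {J U : K → Type} [∀ k, Fintype (U k)] (a : I → V → ℝ)
    (b : I → ℝ) (A : ∀ k, J k → U k → ℝ) (B : ∀ k, J k → ℝ) (e : (Σ k, J k) → I) : Prop :=
  (∀ v ∈ (Polyhedron a b).extremePoints ℝ, ∀ k, ∃ w ∈ (Polyhedron (A k) (B k)).extremePoints ℝ,
    ∀ j, a (e ⟨k, j⟩) ⬝ᵥ v = b (e ⟨k, j⟩) ↔ A k j ⬝ᵥ w = B k j) ∧
  ∀ v ∈ (Polyhedron a b).extremePoints ℝ, ∀ w ∈ (Polyhedron a b).extremePoints ℝ,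
    (∀ q, a (e q) ⬝ᵥ v = b (e q) ↔ a (e q) ⬝ᵥ w = b (e q)) → v = w

/-- linear functional -/
def fn {V : Type} [Fintype V] (c : V → ℝ) : (V → ℝ) →ₗ[ℝ] ℝ where
  toFun x := c ⬝ᵥ x
  map_add' := dotProduct_add c
  map_smul' t x := by rw [dotProduct_smul]; rfl

theorem fn_apply {V : Type} [Fintype V] (c x : V → ℝ) : fn c x = c ⬝ᵥ x := rfl

theorem poly_eq {I V : Type} [Fintype V] (a : I → V → ℝ) (b : I → ℝ) :
    Polyhedron a b = PP (fun i => fn (a i)) b := rfl

theorem vert_iff {I V : Type} [Fintype I] [Fintype V] {a : I → V → ℝ} {b : I → ℝ} {v : V → ℝ} :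
    v ∈ (Polyhedron a b).extremePoints ℝ ↔ Vert (fun i => fn (a i)) b v := by
  rw [poly_eq]
  exact ⟨Vert.of_extreme, Vert.extreme⟩

theorem seq_of_walk {V : Type*} {St : V → V → Prop} {N : ℕ} {v w : V} (h : W St N v w) :
    ∃ x : ℕ → V, x 0 = v ∧ x N = w ∧ ∀ k < N, St (x k) (x (k + 1)) := by
  induction h with
  | nil v => exact ⟨fun _ => v, rfl, rfl, fun k hk => absurd hk (Nat.not_lt_zero _)⟩
  | cons N v w z h _ ih =>
    obtain ⟨x, h0, h1, h2⟩ := ih
    refine ⟨fun k => Nat.casesOn k v x, rfl, h1, fun k hk => ?_⟩
    cases k with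
    | zero =>
      change St v (x 0)
      rw [h0]
      exact h
    | succ k => exact h2 k (by omega)

theorem main {I V K : Type} [Fintype I] [Fintype V] [Fintype K] {J U : K → Type}
    [∀ k, Fintype (J k)] [∀ k, Fintype (U k)] (a : I → V → ℝ) (b : I → ℝ)
    (A : ∀ k, J k → U k → ℝ) (B : ∀ k, J k → ℝ) (e : (Σ k, J k) → I) (h : Modelled a b A B e)
    (r : ℕ) (hr : ∀ k, Fintype.card (J k) ≤ Fintype.card (U k) + 2 * r) (c v : V → ℝ)
    (hv : v ∈ (Polyhedron a b).extremePoints ℝ) :
    ShortPath (Polyhedron a b) c v
      ((∑ k, min (Fintype.card (U k)) (2 * r) + r).choose r - 1) := by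
  classical
  obtain ⟨h1, h2⟩ := h
  have hv' := vert_iff.1 hv
  -- the parts of the tight sets
  have hpart : ∀ v, Vert (fun i => fn (a i)) b v → ∀ k, ∃ w, Vert (fun j => fn (A k j)) (B k) w ∧
      part k (nm (fun i => fn (a i)) b e v) = tight (fun j => fn (A k j)) (B k) w := by
    intro v hv k
    obtain ⟨w, hw, hw'⟩ := h1 v (vert_iff.2 hv) k
    refine ⟨w, vert_iff.1 hw, ?_⟩
    ext j
    rw [mem_part, mem_nm, mem_tight]
    exact hw' j
  have hsh : Shal {t | ∃ v, Vert (fun i => fn (a i)) b v ∧ nm (fun i => fn (a i)) b e v = t} r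
      ∅ ∅ := by
    refine shal_blocks (G := fun k => {t | ∃ w, Vert (fun j => fn (A k j)) (B k) w ∧
      tight (fun j => fn (A k j)) (B k) w = t}) (d := fun k => Fintype.card (U k)) ?_ ?_ ?_ ?_ r
      ∅ ∅ (fun k => Or.inl ((hr k).trans (Nat.le_add_right _ _)))
    · rintro _ ⟨v, hv, rfl⟩ k
      obtain ⟨w, hw, hw'⟩ := hpart v hv k
      exact ⟨w, hw, hw'.symm⟩
    · rintro k _ ⟨w, hw, rfl⟩
      have := card_tight hw
      rwa [Module.finrank_fintype_fun_eq_card] at this
    · rintro k _ ⟨w, hw, rfl⟩ _ ⟨w', hw', rfl⟩ hsub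
      rw [vert_eq hw hsub]
    · rintro k _ ⟨w, hw, rfl⟩ _ ⟨u, hu, rfl⟩ _ ⟨z, hz, rfl⟩ i hi g1 g2 g3 g4
      rw [edge_unique hw hu hz hi g1 g2 g3 g4]
  have hinter : ∀ k v u, part k (nm (fun i => fn (a i)) b e v ∩ nm (fun i => fn (a i)) b e u) =
      part k (nm (fun i => fn (a i)) b e v) ∩ part k (nm (fun i => fn (a i)) b e u) := by
    intro k v u
    ext j
    simp only [mem_part, mem_inter]
  obtain ⟨N, w, g1, g2, g3, g4⟩ := walk (a := fun i => fn (a i)) (β := b) (c := fn c) e r
    (∑ k, min (Fintype.card (U k)) (2 * r))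
    (fun S => ∑ k, Module.finrank ℝ (ker (fun j => fn (A k j)) id (part k S)))
    (by
      intro v w hv hw hsub
      refine h2 v (vert_iff.2 hv) w (vert_iff.2 hw) fun ⟨k, j⟩ => ?_
      obtain ⟨v', hv', e1⟩ := hpart v hv k
      obtain ⟨w', hw', e2⟩ := hpart w hw k
      have e3 : v' = w' := vert_eq hv' (by rw [← e1, ← e2]; exact part_mono hsub)
      have e4 : j ∈ part k (nm (fun i => fn (a i)) b e v) ↔
          j ∈ part k (nm (fun i => fn (a i)) b e w) := by rw [e1, e2, e3]
      rw [mem_part, mem_part, mem_nm, mem_nm] at e4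
      exact e4)
    (by
      intro v u v' u' hv hu hv' hu' hss
      have hlt : ∀ k, part k (nm (fun i => fn (a i)) b e v ∩ nm (fun i => fn (a i)) b e u) ≠
          part k (nm (fun i => fn (a i)) b e v' ∩ nm (fun i => fn (a i)) b e u') →
          Module.finrank ℝ (ker (fun j => fn (A k j)) id
            (part k (nm (fun i => fn (a i)) b e v' ∩ nm (fun i => fn (a i)) b e u'))) <
          Module.finrank ℝ (ker (fun j => fn (A k j)) id
            (part k (nm (fun i => fn (a i)) b e v ∩ nm (fun i => fn (a i)) b e u))) := by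
        intro k hk
        have hsub := (part_mono (k := k) hss.1).ssubset_of_ne hk
        obtain ⟨x, _, e1⟩ := hpart v hv k
        obtain ⟨y, _, e2⟩ := hpart u hu k
        obtain ⟨x', _, e3⟩ := hpart v' hv' k
        obtain ⟨y', _, e4⟩ := hpart u' hu' k
        rw [hinter, hinter, e1, e2, e3, e4] at hsub ⊢
        have := dim_lt (a := fun j => fn (A k j)) (β := B k) (e := id) (v := x) (u := y)
          (v' := x') (u' := y') (by rw [nm_id, nm_id, nm_id, nm_id]; exact hsub)
        rw [nm_id, nm_id, nm_id, nm_id] at this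
        exact this
      refine sum_lt_sum (fun k _ => ?_) ?_
      · by_cases hk : part k (nm (fun i => fn (a i)) b e v ∩ nm (fun i => fn (a i)) b e u) =
          part k (nm (fun i => fn (a i)) b e v' ∩ nm (fun i => fn (a i)) b e u')
        · rw [hk]
        · exact (hlt k hk).le
      · by_contra hcon
        push Not at hcon
        refine hss.ne (part_ext fun k => ?_)
        by_contra hk
        exact absurd (hlt k hk) (not_lt.2 (hcon k (mem_univ k))))
    (by
      intro v u hv hu
      refine sum_le_sum fun k _ => ?_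
      obtain ⟨x, hx, e1⟩ := hpart v hv k
      obtain ⟨y, hy, e2⟩ := hpart u hu k
      rw [hinter, e1, e2]
      refine le_min ?_ ?_
      · refine (Submodule.finrank_le _).trans ?_
        rw [Module.finrank_fintype_fun_eq_card]
      · refine (dim_le hx).trans ?_
        have e3 := card_tight hy
        rw [Module.finrank_fintype_fun_eq_card] at e3
        have e4 : (tight (fun j => fn (A k j)) (B k) x \ tight (fun j => fn (A k j)) (B k) y).card +
            (tight (fun j => fn (A k j)) (B k) y).card ≤ Fintype.card (J k) := by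
          rw [← card_union_of_disjoint sdiff_disjoint]
          exact card_le_univ _
        have := hr k
        omega)
    hsh hv'
  obtain ⟨x, x0, xN, hx⟩ := seq_of_walk g2
  refine ⟨N, by omega, x, x0, fun k hk => ?_, fun k hk => ?_, ?_⟩
  · rcases hk.lt_or_eq with hk | rfl
    · exact vert_iff.2 (hx k hk).1
    · rw [xN]; exact vert_iff.2 g3
  · exact ⟨(hx k hk).exposed, (hx k hk).lt⟩
  · rw [xN]
    rcases g4 with g4 | ⟨d, hd, hcd, hu⟩
    · exact Or.inl g4
    · exact Or.inr ⟨d, ray_exposed' g3 hd hu, hcd⟩

/-- **Polyhedra which are modelled on products of polyhedra with at most `dim + 2 r` constraints have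
short improving paths.** In the second part `P` is contained in the product of the `Q k` (it has the
constraints of the `Q k` and some further ones), and each of its vertices is a vertex of the product. -/
theorem result {K : Type} [Fintype K] {J U : K → Type} [∀ k, Fintype (J k)] [∀ k, Fintype (U k)]
    (A : ∀ k, J k → U k → ℝ) (B : ∀ k, J k → ℝ) (r : ℕ)
    (hr : ∀ k, Fintype.card (J k) ≤ Fintype.card (U k) + 2 * r) :
    (∀ (I V : Type) [Fintype I] [Fintype V] (a : I → V → ℝ) (b : I → ℝ) (e : (Σ k, J k) → I),
      Modelled a b A B e → ∀ c : V → ℝ, ∀ v ∈ (Polyhedron a b).extremePoints ℝ,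
        ShortPath (Polyhedron a b) c v
          ((∑ k, min (Fintype.card (U k)) (2 * r) + r).choose r - 1)) ∧
    ∀ (I : Type) [Fintype I] (a : I → (Σ k, U k) → ℝ) (b : I → ℝ) (P : Set ((Σ k, U k) → ℝ)),
      P = {x | (∀ k, (fun u => x ⟨k, u⟩) ∈ Polyhedron (A k) (B k)) ∧ x ∈ Polyhedron a b} →
      (∀ x ∈ P.extremePoints ℝ, ∀ k,
        (fun u => x ⟨k, u⟩) ∈ (Polyhedron (A k) (B k)).extremePoints ℝ) →
      ∀ c : (Σ k, U k) → ℝ, ∀ v ∈ P.extremePoints ℝ,
        ShortPath P c v ((∑ k, min (Fintype.card (U k)) (2 * r) + r).choose r - 1) := by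
  classical
  refine ⟨fun I V _ _ a b e h c v hv => main a b A B e h r hr c v hv, ?_⟩
  intro I _ a b P hP hvert c v hv
  -- all the constraints
  set a' : (Σ k, J k) ⊕ I → (Σ k, U k) → ℝ := Sum.elim
    (fun q p => if h : p.1 = q.1 then A q.1 q.2 (h ▸ p.2) else 0) a with ha'
  set b' : (Σ k, J k) ⊕ I → ℝ := Sum.elim (fun q => B q.1 q.2) b with hb'
  have hdot : ∀ (k : K) (j : J k) (x : (Σ k, U k) → ℝ),
      a' (Sum.inl ⟨k, j⟩) ⬝ᵥ x = A k j ⬝ᵥ fun u => x ⟨k, u⟩ := by
    intro k j x
    unfold dotProduct
    rw [Fintype.sum_sigma]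
    rw [Finset.sum_eq_single k]
    · refine Finset.sum_congr rfl fun u _ => ?_
      simp [ha']
    · intro k' _ hk'
      refine Finset.sum_eq_zero fun u _ => ?_
      simp [ha', hk']
    · intro hk
      exact absurd (Finset.mem_univ k) hk
  have hPa : P = Polyhedron a' b' := by
    rw [hP]
    ext x
    constructor
    · rintro ⟨h1, h2⟩ (⟨k, j⟩ | i)
      · rw [hdot]
        exact h1 k j
      · exact h2 i
    · intro h
      refine ⟨fun k j => ?_, fun i => h (Sum.inr i)⟩
      have := h (Sum.inl ⟨k, j⟩)
      rw [hdot] at this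
      exact this
  have hmod : Modelled a' b' A B Sum.inl := by
    constructor
    · intro v hv k
      rw [← hPa] at hv
      refine ⟨fun u => v ⟨k, u⟩, hvert v hv k, fun j => ?_⟩
      rw [hdot]
      exact Iff.rfl
    · intro v hv w hw h
      rw [← hPa] at hv hw
      funext ⟨k, u⟩
      have e1 := vert_iff.1 (hvert v hv k)
      have e2 := vert_iff.1 (hvert w hw k)
      have e3 : (fun u => v ⟨k, u⟩) = fun u => w ⟨k, u⟩ := by
        refine vert_eq e1 fun j hj => ?_
        rw [mem_tight] at hj ⊢
        have e4 := h ⟨k, j⟩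
        rw [hdot, hdot] at e4
        exact e4.1 hj
      exact congrFun e3 u
  rw [hPa]
  rw [hPa] at hv
  exact main a' b' A B Sum.inl hmod r hr c v hv

end Pool.Agent.Results.MP_4d246d_lc.ProductsOfSmallPolyhedra
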